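import Pool.Agent.Helper31.LQ.Goals

open MeasureTheory Set
open scoped Pointwise
open Pool.Agent.Helper31.LQ

noncomputable section

namespace Pool.Agent.Helper66.LQ

theorem pos_eq (m : ℕ) : pos m = Set.univ.pi fun _ : Fin m => Ioi (0 : ℝ) := by
  ext t
  simp [pos, Set.mem_pi]

theorem pos_meas (m : ℕ) : MeasurableSet (pos m) := by
  rw [pos_eq]
  exact MeasurableSet.univ_pi fun _ => measurableSet_Ioi

theorem exp_int (m : ℕ) {c : ℝ} (hc : 0 < c) :
    IntegrableOn (fun t : Fin m → ℝ => Real.exp (-(c * ∑ a, t a))) (pos m) := by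
  rw [IntegrableOn, pos_eq, volume_pi, Measure.restrict_pi_pi]
  have h1 : ∀ _ : Fin m, Integrable (fun x : ℝ => Real.exp (-c * x))
      (volume.restrict (Ioi (0 : ℝ))) := fun _ => exp_neg_integrableOn_Ioi 0 hc
  have h2 := MeasureTheory.Integrable.fintype_prod (f := fun (_ : Fin m) (x : ℝ) =>
    Real.exp (-c * x)) (μ := fun _ : Fin m => volume.restrict (Ioi (0 : ℝ))) h1
  refine h2.congr (Filter.Eventually.of_forall fun t => ?_)
  simp only
  rw [← Real.exp_sum]
  congr 1
  rw [← Finset.mul_sum]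
  ring

theorem P_zero {m : ℕ} {P : (Fin m → ℝ) → ℝ} (hP : SL m P) : P 0 = 0 := by
  have h := hP.hom 0 le_rfl 0
  simpa using h

theorem P_sum {m : ℕ} {P : (Fin m → ℝ) → ℝ} (hP : SL m P) (s : Finset (Fin m))
    (t : Fin m → ℝ) (ht : ∀ a, 0 ≤ t a) :
    P (∑ a ∈ s, t a • (Pi.single a 1 : Fin m → ℝ)) ≤
      ∑ a ∈ s, t a * P (Pi.single a 1) := by
  classical
  induction s using Finset.induction_on with
  | empty => simp [P_zero hP]
  | insert a s ha ih =>
    rw [Finset.sum_insert ha, Finset.sum_insert ha]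
    refine (hP.add _ _).trans ?_
    rw [hP.hom (t a) (ht a)]
    linarith

theorem P_le {m : ℕ} {P : (Fin m → ℝ) → ℝ} (hP : SL m P) (t : Fin m → ℝ) (ht : ∀ a, 0 ≤ t a) :
    P t ≤ (∑ a, P (Pi.single a 1)) * ∑ a, t a := by
  have h0 : t = ∑ a, t a • (Pi.single a 1 : Fin m → ℝ) := by
    ext b
    simp [Finset.sum_apply, Pi.single_apply]
  have h1 := P_sum hP Finset.univ t ht
  rw [← h0] at h1
  refine h1.trans ?_
  rw [Finset.mul_sum]
  refine Finset.sum_le_sum fun a _ => ?_
  rw [mul_comm]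
  refine mul_le_mul_of_nonneg_right ?_ (ht a)
  exact Finset.single_le_sum (f := fun a => P (Pi.single a 1)) (fun b _ => hP.nn _)
    (Finset.mem_univ a)

theorem bnd {r s : ℝ} (hr : 0 < r) (_hs : 0 ≤ s) :
    Real.exp (-(r * s)) * s ≤ 2 / r * Real.exp (-(r / 2 * s)) := by
  have h1 : r / 2 * s ≤ Real.exp (r / 2 * s) := by
    have := Real.add_one_le_exp (r / 2 * s)
    linarith
  have h2 : Real.exp (-(r * s)) = Real.exp (-(r / 2 * s)) * Real.exp (-(r / 2 * s)) := by
    rw [← Real.exp_add]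
    congr 1
    ring
  have h3 : Real.exp (-(r / 2 * s)) * (r / 2 * s) ≤ 1 := by
    have h4 := mul_le_mul_of_nonneg_left h1 (Real.exp_pos (-(r / 2 * s))).le
    rwa [← Real.exp_add, neg_add_cancel, Real.exp_zero] at h4
  have h5 : Real.exp (-(r * s)) * s =
      2 / r * (Real.exp (-(r / 2 * s)) * (Real.exp (-(r / 2 * s)) * (r / 2 * s))) := by
    rw [h2]
    field_simp
  rw [h5]
  have h6 : Real.exp (-(r / 2 * s)) * (Real.exp (-(r / 2 * s)) * (r / 2 * s)) ≤
      Real.exp (-(r / 2 * s)) * 1 :=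
    mul_le_mul_of_nonneg_left h3 (Real.exp_pos _).le
  rw [mul_one] at h6
  exact mul_le_mul_of_nonneg_left h6 (by positivity)

theorem smul_pos (m : ℕ) {r : ℝ} (hr : 0 < r) : r • pos m = pos m := by
  ext t
  constructor
  · rintro ⟨u, hu, rfl⟩ a
    exact mul_pos hr (hu a)
  · intro ht
    refine ⟨r⁻¹ • t, fun a => mul_pos (inv_pos.mpr hr) (ht a), ?_⟩
    simp only
    rw [smul_smul, mul_inv_cancel₀ hr.ne', one_smul]

theorem gX1 : X1 := by
  intro m P hP r hr
  constructor
  · have hdom := (exp_int m (c := r / 2) (by positivity)).const_mul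
      ((∑ a, P (Pi.single a 1)) * (2 / r))
    refine Integrable.mono' hdom ?_ ?_
    · refine Continuous.aestronglyMeasurable ?_
      have := hP.cont
      fun_prop
    · refine (ae_restrict_iff' (pos_meas m)).mpr (Filter.Eventually.of_forall fun t ht => ?_)
      have ht0 : ∀ a, 0 ≤ t a := fun a => (ht a).le
      have hs : 0 ≤ ∑ a, t a := Finset.sum_nonneg fun a _ => ht0 a
      have hC : 0 ≤ ∑ a, P (Pi.single a 1) := Finset.sum_nonneg fun a _ => hP.nn _
      rw [Real.norm_eq_abs, abs_of_nonneg (mul_nonneg (Real.exp_pos _).le (hP.nn t))]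
      calc Real.exp (-(r * ∑ a, t a)) * P t
          ≤ Real.exp (-(r * ∑ a, t a)) * ((∑ a, P (Pi.single a 1)) * ∑ a, t a) :=
            mul_le_mul_of_nonneg_left (P_le hP t ht0) (Real.exp_pos _).le
        _ = (∑ a, P (Pi.single a 1)) * (Real.exp (-(r * ∑ a, t a)) * ∑ a, t a) := by ring
        _ ≤ (∑ a, P (Pi.single a 1)) * (2 / r * Real.exp (-(r / 2 * ∑ a, t a))) :=
            mul_le_mul_of_nonneg_left (bnd hr hs) hC
        _ = _ := by ring
  · have h1 := Measure.setIntegral_comp_smul (μ := (volume : Measure (Fin m → ℝ)))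
      (fun t : Fin m → ℝ => Real.exp (-∑ a, t a) * P t) (pos m) hr.ne'
    rw [smul_pos m hr, Module.finrank_fin_fun] at h1
    have h2 : ∀ t : Fin m → ℝ, Real.exp (-(r * ∑ a, t a)) * P t =
        r⁻¹ * (Real.exp (-∑ a, (r • t) a) * P (r • t)) := by
      intro t
      rw [hP.hom r hr.le]
      simp only [Pi.smul_apply, smul_eq_mul]
      rw [← Finset.mul_sum]
      field_simp
    simp only [h2]
    rw [integral_const_mul, h1]
    unfold Ex
    rw [abs_of_pos (inv_pos.mpr (pow_pos hr m)), smul_eq_mul, pow_succ, mul_inv]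
    ring

end Pool.Agent.Helper66.LQ
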